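import Pool.Agent.Y571.NC.Core
import Pool.Agent.Y171.NC.Reach
import Pool.Agent.Y145.NC.PFam
import Pool.Agent.Results.MP_bb6540_pr.DihedralNilpotent

/-!
# MP_bb6540_pr: groups with an abelian subgroup of small index

The walk `S`, its total variation distance `tvDist`, the entropic time `t0`, `tStar` and
`CutoffWhpAt` are those of the starting file (`Pool.Agent.H632R3.RCG`).
-/

set_option autoImplicit false

open Filter Topology
open Pool.Agent.H632R3.RCG

namespace Pool.Agent.Results.MP_bb6540_pr.AbelianSubgroups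

/-- `G j` has a subgroup `B j` of index `k j ^ o(1)` whose commutators lie in a normal subgroup
`N j` of `G j` of order `|G j| ^ o(1)`. (For instance `N j` trivial and `B j` abelian of bounded
index.) -/
def NearlyAbelian (G : ℕ → Type) [∀ j, Group (G j)] (k : ℕ → ℕ) : Prop :=
  ∃ N B : ∀ j, Subgroup (G j), (∀ j, (N j).Normal) ∧
    (∀ j, ∀ a ∈ B j, ∀ b ∈ B j, a * b * a⁻¹ * b⁻¹ ∈ N j) ∧
    Tendsto (fun j => Real.log (B j).index / Real.log (k j)) atTop (𝓝 0) ∧
    Tendsto (fun j => Real.log (Nat.card (N j)) / Real.log (Nat.card (G j))) atTop (𝓝 0)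

/-- For all choices of the generators the total variation distance at all times up to
`s log_k |G|` is close to one. -/
def FarUpTo (G : ℕ → Type) [∀ j, Group (G j)] [∀ j, Fintype (G j)] (k : ℕ → ℕ) (s : ℝ) : Prop :=
  ∀ δ : ℝ, 0 < δ → ∀ᶠ j in atTop, ∀ (Z : Fin (k j) → G j) (t : ℝ), 0 ≤ t →
    t ≤ s * Real.logb (k j) (Nat.card (G j)) → 1 - δ ≤ tvDist Z t

/-- For some `ε > 0` and all choices of the generators the total variation distance at time
`(1 + ε) t_*` is close to one. -/
def FarAtTStar (G : ℕ → Type) [∀ j, Group (G j)] [∀ j, Fintype (G j)] (k : ℕ → ℕ) : Prop :=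
  ∃ ε : ℝ, 0 < ε ∧ ε < 1 ∧ ∀ δ : ℝ, 0 < δ → ∀ᶠ j in atTop,
    ∀ Z : Fin (k j) → G j, 1 - δ ≤ tvDist Z ((1 + ε) * tStar (G j) (k j))

theorem main (G : ℕ → Type) [∀ j, Group (G j)] [∀ j, Fintype (G j)] (k : ℕ → ℕ) (C : ℝ)
    (hG : NearlyAbelian G k) (hC : 0 < C) (hk : Tendsto k atTop atTop)
    (hkN : ∀ᶠ j in atTop, (k j : ℝ) ≤ Real.log (Nat.card (G j)) ^ C) (s : ℝ)
    (hs : s * (1 - 1 / C) < 1) :
    FarUpTo G k s ∧
      ((∀ᶠ j in atTop, t0 (k j) (Nat.card (Abelianization (G j))) ≤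
        s * Real.logb (k j) (Nat.card (G j))) →
      FarAtTStar G k ∧ ¬ CutoffWhpAt G k (fun j => tStar (G j) (k j))) := by
  obtain ⟨N, B, hN, hB, hr, hm⟩ := hG
  refine ⟨fun δ hδ => ?_, fun ht => ?_⟩
  · exact Pool.Agent.Y571.NC.family G N B k hk hC hkN Pool.Agent.Y171.NC.reach hB hr hm hs hδ
  · have h := Pool.Agent.Y571.NC.far_tStar G N B k hk hC hkN Pool.Agent.Y171.NC.reach hB hr hm
      hs ht
    exact ⟨h, Pool.Agent.Y571.NC.noCutoff_of G k h⟩

theorem main_slow (G : ℕ → Type) [∀ j, Group (G j)] [∀ j, Fintype (G j)] (k : ℕ → ℕ)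
    (hG : NearlyAbelian G k) (hk : Tendsto k atTop atTop)
    (hkN : ∀ C : ℝ, 1 < C → ∀ᶠ j in atTop, (k j : ℝ) ≤ Real.log (Nat.card (G j)) ^ C) (s : ℝ) :
    FarUpTo G k s ∧
      ((∀ᶠ j in atTop, t0 (k j) (Nat.card (Abelianization (G j))) ≤
        s * Real.logb (k j) (Nat.card (G j))) →
      FarAtTStar G k ∧ ¬ CutoffWhpAt G k (fun j => tStar (G j) (k j))) := by
  have h0 : 0 < |s| + 1 := by positivity
  have hC : 1 < 1 + 1 / (|s| + 1) := by
    have : 0 < 1 / (|s| + 1) := by positivity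
    linarith
  refine main G k (1 + 1 / (|s| + 1)) hG (by linarith) hk (hkN _ hC) s ?_
  have h1 : 1 - 1 / (1 + 1 / (|s| + 1)) = 1 / (|s| + 2) := by
    field_simp
    ring
  rw [h1, mul_one_div, div_lt_one (by positivity)]
  have := le_abs_self s
  linarith

theorem family (p : ℕ) (hp : p.Prime) :
    ∃ (G : ℕ → Type) (_ : ∀ m, Group (G m)) (_ : ∀ m, Fintype (G m)),
      (∀ m, Group.IsNilpotent (G m) ∧ Nat.card (G m) = p ^ (m * (p - 1) + 1) ∧
        Nat.card (Abelianization (G m)) ≤ p ^ 2 ∧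
        ∃ B : Subgroup (G m), B.index = p ∧ ∀ a ∈ B, ∀ b ∈ B, a * b = b * a) ∧
      ∀ (m k : ℕ → ℕ) (C : ℝ), 0 < C → Tendsto k atTop atTop →
        (∀ᶠ j in atTop, (k j : ℝ) ≤ Real.log (Nat.card (G (m j))) ^ C) →
        Tendsto (fun j => Nat.card (G (m j))) atTop atTop ∧
        Tendsto (fun j => Real.log (k j) / Real.log (Nat.card (G (m j)))) atTop (𝓝 0) ∧
        Tendsto (fun j => Real.log (Nat.card (Abelianization (G (m j)))) / (k j : ℝ)) atTop
          (𝓝 0) ∧
        (∀ s : ℝ, s * (1 - 1 / C) < 1 → FarUpTo (fun j => G (m j)) k s) ∧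
        FarAtTStar (fun j => G (m j)) k ∧
        ¬ CutoffWhpAt (fun j => G (m j)) k (fun j => tStar (G (m j)) (k j)) := by
  obtain ⟨G, i1, i2, B, h⟩ := Pool.Agent.Y145.NCP.pfam p hp
  have _ : Fact p.Prime := ⟨hp⟩
  refine ⟨G, i1, i2, fun m => ⟨?_, (h m).2.2.1, (h m).2.2.2, B m, (h m).2.1, (h m).1⟩, ?_⟩
  · exact (IsPGroup.of_card (p := p) (G := G m) (h m).2.2.1).isNilpotent
  · intro m k C hC hk hkN
    have hkr : Tendsto (fun j => (k j : ℝ)) atTop atTop := tendsto_natCast_atTop_atTop.comp hk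
    have hA1 : ∀ j, 1 ≤ Nat.card (Abelianization (G (m j))) := by
      intro j
      have : Finite (Abelianization (G (m j))) :=
        Finite.of_surjective _ (QuotientGroup.mk_surjective)
      exact Nat.card_pos
    have hA : ∀ j, Real.log (Nat.card (Abelianization (G (m j)))) ≤ Real.log ((p : ℝ) ^ 2) := by
      intro j
      refine Real.log_le_log (by exact_mod_cast hA1 j) ?_
      exact_mod_cast (h (m j)).2.2.2
    have hA0 : ∀ j, 0 ≤ Real.log (Nat.card (Abelianization (G (m j)))) := fun j =>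
      Real.log_natCast_nonneg _
    have hG : NearlyAbelian (fun j => G (m j)) k := by
      refine ⟨fun _ => ⊥, fun j => B (m j), fun _ => inferInstance, ?_, ?_, ?_⟩
      · intro j a ha b hb
        rw [Subgroup.mem_bot, (h (m j)).1 a ha b hb]
        group
      · have h1 : Tendsto (fun j => Real.log p / Real.log (k j)) atTop (𝓝 0) :=
          tendsto_const_nhds.div_atTop (Real.tendsto_log_atTop.comp hkr)
        refine h1.congr fun j => ?_
        rw [(h (m j)).2.1]
      · have h1 : (fun j => Real.log (Nat.card ((⊥ : Subgroup (G (m j))))) /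
            Real.log (Nat.card (G (m j)))) = fun _ => (0 : ℝ) := by
          funext j
          rw [Subgroup.card_bot]
          simp
        rw [h1]
        exact tendsto_const_nhds
    have hlb := Pool.Agent.Y571.NC.logb_tendsto (fun j => G (m j)) k hk hC hkN
    have ht : ∀ᶠ j in atTop, t0 (k j) (Nat.card (Abelianization (G (m j)))) ≤
        1 * Real.logb (k j) (Nat.card (G (m j))) := by
      filter_upwards [hlb.eventually_ge_atTop (Real.log ((p : ℝ) ^ 2)),
        hkr.eventually_ge_atTop (Real.log ((p : ℝ) ^ 2))] with j h1 h2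
      rw [one_mul]
      exact (t0_le (hA1 j) ((hA j).trans h2)).trans ((hA j).trans h1)
    have h1C : 1 * (1 - 1 / C) < 1 := by
      have : 0 < 1 / C := by positivity
      linarith
    have hmain := (main (fun j => G (m j)) k C hG hC hk hkN 1 h1C).2 ht
    refine ⟨Pool.Agent.Y571.NC.card_tendsto (fun j => G (m j)) k hk hC hkN,
      Pool.Agent.Y571.NC.log_div_tendsto (fun j => G (m j)) k hk hC hkN, ?_,
      fun s hs => (main (fun j => G (m j)) k C hG hC hk hkN s hs).1, hmain.1, hmain.2⟩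
    have h1 : Tendsto (fun j => Real.log ((p : ℝ) ^ 2) / (k j : ℝ)) atTop (𝓝 0) :=
      tendsto_const_nhds.div_atTop hkr
    refine squeeze_zero (fun j => div_nonneg (hA0 j) (Nat.cast_nonneg _)) (fun j => ?_) h1
    exact div_le_div_of_nonneg_right (hA j) (Nat.cast_nonneg _)

/-- **The conjecture fails for all nearly abelian groups whose `t_*` is not much larger than the
diameter time.** (1) Let `k j → ∞`, `k j ≤ (log |G j|) ^ C`, and let `G j` be finite groups with
subgroups of index `k j ^ o(1)` that are abelian modulo normal subgroups of `G j` of order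
`|G j| ^ o(1)`. Then for every `s < C / (C - 1)` (every real `s` if `C ≤ 1`) and all generators
the walk is far from uniform up to time `s log_k |G|`; if `t_0(k, |A|) ≤ s log_k |G|` then it is
far from uniform at time `(1 + ε) t_*` and there is no cutoff at `t_*`. (2) If
`k j ≤ (log |G j|) ^ (1 + o(1))` then this holds for every real `s`. (3) For every prime `p` there
are such `p`-groups with an abelian subgroup of index `p` and Abelianisation of order at most
`p ^ 2`; they violate the conjecture for all numbers of generators `k → ∞` that are at most a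
power of `log |G|`. (4) The negated form of the question. -/
theorem result :
    (∀ (G : ℕ → Type) [∀ j, Group (G j)] [∀ j, Fintype (G j)] (k : ℕ → ℕ) (C : ℝ),
      NearlyAbelian G k → 0 < C → Tendsto k atTop atTop →
      (∀ᶠ j in atTop, (k j : ℝ) ≤ Real.log (Nat.card (G j)) ^ C) →
      ∀ s : ℝ, s * (1 - 1 / C) < 1 →
        FarUpTo G k s ∧
        ((∀ᶠ j in atTop, t0 (k j) (Nat.card (Abelianization (G j))) ≤
          s * Real.logb (k j) (Nat.card (G j))) →
        FarAtTStar G k ∧ ¬ CutoffWhpAt G k (fun j => tStar (G j) (k j)))) ∧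
    (∀ (G : ℕ → Type) [∀ j, Group (G j)] [∀ j, Fintype (G j)] (k : ℕ → ℕ),
      NearlyAbelian G k → Tendsto k atTop atTop →
      (∀ C : ℝ, 1 < C → ∀ᶠ j in atTop, (k j : ℝ) ≤ Real.log (Nat.card (G j)) ^ C) →
      ∀ s : ℝ,
        FarUpTo G k s ∧
        ((∀ᶠ j in atTop, t0 (k j) (Nat.card (Abelianization (G j))) ≤
          s * Real.logb (k j) (Nat.card (G j))) →
        FarAtTStar G k ∧ ¬ CutoffWhpAt G k (fun j => tStar (G j) (k j)))) ∧
    (∀ p : ℕ, p.Prime → ∃ (G : ℕ → Type) (_ : ∀ m, Group (G m)) (_ : ∀ m, Fintype (G m)),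
      (∀ m, Group.IsNilpotent (G m) ∧ Nat.card (G m) = p ^ (m * (p - 1) + 1) ∧
        Nat.card (Abelianization (G m)) ≤ p ^ 2 ∧
        ∃ B : Subgroup (G m), B.index = p ∧ ∀ a ∈ B, ∀ b ∈ B, a * b = b * a) ∧
      ∀ (m k : ℕ → ℕ) (C : ℝ), 0 < C → Tendsto k atTop atTop →
        (∀ᶠ j in atTop, (k j : ℝ) ≤ Real.log (Nat.card (G (m j))) ^ C) →
        Tendsto (fun j => Nat.card (G (m j))) atTop atTop ∧
        Tendsto (fun j => Real.log (k j) / Real.log (Nat.card (G (m j)))) atTop (𝓝 0) ∧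
        Tendsto (fun j => Real.log (Nat.card (Abelianization (G (m j)))) / (k j : ℝ)) atTop
          (𝓝 0) ∧
        (∀ s : ℝ, s * (1 - 1 / C) < 1 → FarUpTo (fun j => G (m j)) k s) ∧
        FarAtTStar (fun j => G (m j)) k ∧
        ¬ CutoffWhpAt (fun j => G (m j)) k (fun j => tStar (G (m j)) (k j))) ∧
    (∃ (G : ℕ → Type) (_ : ∀ j, Group (G j)) (_ : ∀ j, Fintype (G j)) (k : ℕ → ℕ),
      (∀ j, Group.IsNilpotent (G j)) ∧
      Tendsto (fun j => Nat.card (G j)) atTop atTop ∧
      Tendsto (fun j => Real.log (k j)) atTop atTop ∧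
      Tendsto (fun j => Real.log (k j) / Real.log (Nat.card (G j))) atTop (𝓝 0) ∧
      Tendsto (fun j => Real.log (Nat.card (Abelianization (G j))) / (k j : ℝ)) atTop (𝓝 0) ∧
      ¬ CutoffWhpAt G k (fun j => tStar (G j) (k j))) :=
  ⟨fun G _ _ k C h1 h2 h3 h4 s hs => main G k C h1 h2 h3 h4 s hs,
    fun G _ _ k h1 h2 h3 s => main_slow G k h1 h2 h3 s, family,
    Pool.Agent.Results.MP_bb6540_pr.DihedralNilpotent.result.1⟩

end Pool.Agent.Results.MP_bb6540_pr.AbelianSubgroups
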