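import Pool.Agent.Y571.NC.Two
import Pool.Agent.Results.MP_d87a8f_pr.NearlyAbelianGroups

/-!
# MP_bb6540_pr: the cutoff conjecture fails for nilpotent groups of class two

The law of the walk, its total variation distance `tvDist`, the entropic time `t0`, `tStar` and
`CutoffWhpAt` are those of the starting file (`Pool.Agent.H632R3.RCG`).
-/

set_option autoImplicit false

open Filter Topology
open Pool.Agent.H632R3.RCG
open Pool.Agent.Y571.NC (Two)

namespace Pool.Agent.Results.MP_bb6540_pr.ClassTwo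

/-- For some `ε > 0` and all choices of the generators the total variation distance at time
`(1 + ε) t_*` is close to one. -/
def FarAtTStar (G : ℕ → Type) [∀ j, Group (G j)] [∀ j, Fintype (G j)] (k : ℕ → ℕ) : Prop :=
  ∃ ε : ℝ, 0 < ε ∧ ε < 1 ∧ ∀ δ : ℝ, 0 < δ → ∀ᶠ j in atTop,
    ∀ Z : Fin (k j) → G j, 1 - δ ≤ tvDist Z ((1 + ε) * tStar (G j) (k j))

/-- `G j` has a subgroup `B j` of index `κ j ^ o(1)`, `κ = k / log |G|`, whose commutators lie in
a normal subgroup `N j` of `G j` of order `|G j| ^ o(1)`. -/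
def NearlyAbelian (G : ℕ → Type) [∀ j, Group (G j)] (k : ℕ → ℕ) : Prop :=
  ∃ N B : ∀ j, Subgroup (G j), (∀ j, (N j).Normal) ∧
    (∀ j, ∀ a ∈ B j, ∀ b ∈ B j, a * b * a⁻¹ * b⁻¹ ∈ N j) ∧
    Tendsto (fun j => Real.log (B j).index / Real.log (k j / Real.log (Nat.card (G j)))) atTop
      (𝓝 0) ∧
    Tendsto (fun j => Real.log (Nat.card (N j)) / Real.log (Nat.card (G j))) atTop (𝓝 0)

/-- `log |A| ≪ k` if `log |G| ≪ k`. -/
theorem ab_div (G : ℕ → Type) [∀ j, Group (G j)] [∀ j, Fintype (G j)] (k : ℕ → ℕ)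
    (hk : Tendsto (fun j => (k j : ℝ) / Real.log (Nat.card (G j))) atTop atTop) :
    Tendsto (fun j => Real.log (Nat.card (Abelianization (G j))) / (k j : ℝ)) atTop (𝓝 0) := by
  have h1 : Tendsto (fun j => Real.log (Nat.card (G j)) / (k j : ℝ)) atTop (𝓝 0) := by
    have := hk.inv_tendsto_atTop
    refine this.congr fun j => ?_
    simp only [Pi.inv_apply, inv_div]
  refine squeeze_zero (fun j => div_nonneg (Real.log_natCast_nonneg _) (Nat.cast_nonneg _))
    (fun j => ?_) h1
  refine div_le_div_of_nonneg_right ?_ (Nat.cast_nonneg _)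
  have hf : Finite (Abelianization (G j)) :=
    Finite.of_surjective _ (QuotientGroup.mk_surjective)
  have h2 : Nat.card (Abelianization (G j)) ≤ Nat.card (G j) :=
    Nat.card_le_card_of_surjective _ (QuotientGroup.mk_surjective)
  exact Real.log_le_log (by exact_mod_cast (Nat.card_pos : 0 < Nat.card (Abelianization (G j))))
    (by exact_mod_cast h2)

theorem main (G : ℕ → Type) [∀ j, Group (G j)] [∀ j, Fintype (G j)] (k : ℕ → ℕ) (C a : ℝ)
    (hn : Tendsto (fun j => Nat.card (G j)) atTop atTop)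
    (hk : Tendsto (fun j => (k j : ℝ) / Real.log (Nat.card (G j))) atTop atTop)
    (hC : 0 < C) (hkN : ∀ᶠ j in atTop, (k j : ℝ) ≤ Real.log (Nat.card (G j)) ^ C)
    (ha : a < 1)
    (hA : ∀ᶠ j in atTop, Real.log (Nat.card (Abelianization (G j))) ≤
      a * Real.log (Nat.card (G j)))
    (hG : NearlyAbelian G k) :
    Tendsto (fun j => Real.log (k j)) atTop atTop ∧
      Tendsto (fun j => Real.log (k j) / Real.log (Nat.card (G j))) atTop (𝓝 0) ∧
      Tendsto (fun j => Real.log (Nat.card (Abelianization (G j))) / (k j : ℝ)) atTop (𝓝 0) ∧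
      FarAtTStar G k ∧ ¬ CutoffWhpAt G k (fun j => tStar (G j) (k j)) := by
  have h := Pool.Agent.Results.MP_d87a8f_pr.NearlyAbelianGroups.fails G k C a hn hk hC hkN ha hA hG
  refine ⟨?_, h.1, ab_div G k hk, h.2.2.2.1, h.2.2.2.2⟩
  exact Real.tendsto_log_atTop.comp (tendsto_natCast_atTop_atTop.comp
    (Pool.Agent.Results.MP_d87a8f_pr.NearlyAbelianGroups.k_tendsto G k hn hk))

theorem family (p : ℕ) [Fact p.Prime] (m k : ℕ → ℕ) (C : ℝ) (hm : Tendsto m atTop atTop)
    (hC : 0 < C)
    (hk : Tendsto (fun j => (k j : ℝ) / Real.log (Nat.card (Two p (m j)))) atTop atTop)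
    (hkN : ∀ᶠ j in atTop, (k j : ℝ) ≤ Real.log (Nat.card (Two p (m j))) ^ C) :
    Tendsto (fun j => Nat.card (Two p (m j))) atTop atTop ∧
      Tendsto (fun j => Real.log (k j)) atTop atTop ∧
      Tendsto (fun j => Real.log (k j) / Real.log (Nat.card (Two p (m j)))) atTop (𝓝 0) ∧
      Tendsto (fun j => Real.log (Nat.card (Abelianization (Two p (m j)))) / (k j : ℝ)) atTop
        (𝓝 0) ∧
      FarAtTStar (fun j => Two p (m j)) k ∧
      ¬ CutoffWhpAt (fun j => Two p (m j)) k (fun j => tStar (Two p (m j)) (k j)) := by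
  have hp : p.Prime := Fact.out
  have hp2 : 2 ≤ p := hp.two_le
  have hp0 : (1 : ℝ) < p := by exact_mod_cast hp.one_lt
  have hn : Tendsto (fun j => Nat.card (Two p (m j))) atTop atTop := by
    refine tendsto_atTop_mono (fun j => ?_) hm
    rw [Two.card]
    have h1 : m j < p ^ m j := Nat.lt_pow_self (by omega)
    have h2 : p ^ m j ≤ p ^ (2 * m j + 1) := Nat.pow_le_pow_right (by omega) (by omega)
    omega
  have hell : Tendsto (fun j => Real.log (Nat.card (Two p (m j)))) atTop atTop :=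
    Real.tendsto_log_atTop.comp (tendsto_natCast_atTop_atTop.comp hn)
  have hlκ : Tendsto (fun j => Real.log (k j / Real.log (Nat.card (Two p (m j))))) atTop atTop :=
    Real.tendsto_log_atTop.comp hk
  have hG : NearlyAbelian (fun j => Two p (m j)) k := by
    refine ⟨fun _ => ⊥, fun j => (Two.cHom p (m j)).ker, fun _ => inferInstance, ?_, ?_, ?_⟩
    · intro j a ha b hb
      rw [Subgroup.mem_bot, Two.ker_comm a ha b hb]
      group
    · have h1 : Tendsto (fun j => Real.log p /
          Real.log (k j / Real.log (Nat.card (Two p (m j))))) atTop (𝓝 0) :=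
        tendsto_const_nhds.div_atTop hlκ
      refine h1.congr fun j => ?_
      rw [Two.ker_index]
    · have h1 : (fun j => Real.log (Nat.card ((⊥ : Subgroup (Two p (m j))))) /
          Real.log (Nat.card (Two p (m j)))) = fun _ => (0 : ℝ) := by
        funext j
        rw [Subgroup.card_bot]
        simp
      rw [h1]
      exact tendsto_const_nhds
  have hA : ∀ᶠ j in atTop, Real.log (Nat.card (Abelianization (Two p (m j)))) ≤
      3 / 4 * Real.log (Nat.card (Two p (m j))) := by
    filter_upwards [hm.eventually_ge_atTop 1] with j h1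
    have hA1 : 1 ≤ Nat.card (Abelianization (Two p (m j))) := by
      have : Finite (Abelianization (Two p (m j))) :=
        Finite.of_surjective _ (QuotientGroup.mk_surjective)
      exact Nat.card_pos
    have h2 : Real.log (Nat.card (Abelianization (Two p (m j)))) ≤
        Real.log ((p : ℝ) ^ (m j + 1)) := by
      refine Real.log_le_log (by exact_mod_cast hA1) ?_
      exact_mod_cast Two.card_ab
    have h3 : Real.log (Nat.card (Two p (m j))) = (2 * (m j : ℝ) + 1) * Real.log p := by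
      rw [Two.card]
      push_cast
      rw [Real.log_pow]
      push_cast
      ring
    have hlp : 0 < Real.log p := Real.log_pos hp0
    have hmj : (1 : ℝ) ≤ m j := by exact_mod_cast h1
    rw [Real.log_pow] at h2
    push_cast at h2
    rw [h3]
    nlinarith
  exact ⟨hn, main (fun j => Two p (m j)) k C (3 / 4) hn hk hC hkN (by norm_num) hA hG⟩

/-- **The conjecture fails for groups of class two.** (1) For every prime `p` the groups
`Two p m` of triples `(x, y, c)`, `x, y ∈ (ℤ/p)^m`, `c ∈ ℤ/p`, with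
`(x, y, c) (x', y', c') = (x + x', y + y' + c x', c + c')` have order `p ^ (2 m + 1)`, are
nilpotent of class at most two, and violate the conjecture for all `m → ∞` and all
`k ≫ log |G|` that are at most a power of `log |G|`: for all generators the walk is far from
uniform at time `(1 + ε) t_*`. (2) The same holds for all nearly abelian groups with `|A| ≤ |G|^a`
for some `a < 1`. (3) The negated form of the question with groups of class two. -/
theorem result :
    (∀ (p : ℕ) [Fact p.Prime],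
      (∀ m : ℕ, Nat.card (Two p m) = p ^ (2 * m + 1) ∧ Group.IsNilpotent (Two p m) ∧
        (∀ a b z : Two p m, a * b * a⁻¹ * b⁻¹ * z = z * (a * b * a⁻¹ * b⁻¹)) ∧
        Nat.card (Abelianization (Two p m)) ≤ p ^ (m + 1)) ∧
      ∀ (m k : ℕ → ℕ) (C : ℝ), Tendsto m atTop atTop → 0 < C →
        Tendsto (fun j => (k j : ℝ) / Real.log (Nat.card (Two p (m j)))) atTop atTop →
        (∀ᶠ j in atTop, (k j : ℝ) ≤ Real.log (Nat.card (Two p (m j))) ^ C) →
        Tendsto (fun j => Nat.card (Two p (m j))) atTop atTop ∧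
        Tendsto (fun j => Real.log (k j)) atTop atTop ∧
        Tendsto (fun j => Real.log (k j) / Real.log (Nat.card (Two p (m j)))) atTop (𝓝 0) ∧
        Tendsto (fun j => Real.log (Nat.card (Abelianization (Two p (m j)))) / (k j : ℝ)) atTop
          (𝓝 0) ∧
        FarAtTStar (fun j => Two p (m j)) k ∧
        ¬ CutoffWhpAt (fun j => Two p (m j)) k (fun j => tStar (Two p (m j)) (k j))) ∧
    (∀ (G : ℕ → Type) [∀ j, Group (G j)] [∀ j, Fintype (G j)] (k : ℕ → ℕ) (C a : ℝ),
      Tendsto (fun j => Nat.card (G j)) atTop atTop →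
      Tendsto (fun j => (k j : ℝ) / Real.log (Nat.card (G j))) atTop atTop →
      0 < C → (∀ᶠ j in atTop, (k j : ℝ) ≤ Real.log (Nat.card (G j)) ^ C) →
      a < 1 → (∀ᶠ j in atTop, Real.log (Nat.card (Abelianization (G j))) ≤
        a * Real.log (Nat.card (G j))) →
      NearlyAbelian G k →
        Tendsto (fun j => Real.log (k j)) atTop atTop ∧
        Tendsto (fun j => Real.log (k j) / Real.log (Nat.card (G j))) atTop (𝓝 0) ∧
        Tendsto (fun j => Real.log (Nat.card (Abelianization (G j))) / (k j : ℝ)) atTop (𝓝 0) ∧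
        FarAtTStar G k ∧ ¬ CutoffWhpAt G k (fun j => tStar (G j) (k j))) ∧
    (∃ (G : ℕ → Type) (_ : ∀ j, Group (G j)) (_ : ∀ j, Fintype (G j)) (k : ℕ → ℕ),
      (∀ j, Group.IsNilpotent (G j)) ∧
      (∀ j, ∀ a b z : G j, a * b * a⁻¹ * b⁻¹ * z = z * (a * b * a⁻¹ * b⁻¹)) ∧
      Tendsto (fun j => Nat.card (G j)) atTop atTop ∧
      Tendsto (fun j => Real.log (k j)) atTop atTop ∧
      Tendsto (fun j => Real.log (k j) / Real.log (Nat.card (G j))) atTop (𝓝 0) ∧
      Tendsto (fun j => Real.log (Nat.card (Abelianization (G j))) / (k j : ℝ)) atTop (𝓝 0) ∧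
      ¬ CutoffWhpAt G k (fun j => tStar (G j) (k j))) := by
  have hnil : ∀ (p : ℕ) [Fact p.Prime] (m : ℕ), Group.IsNilpotent (Two p m) := fun p _ m =>
    (IsPGroup.of_card (p := p) (G := Two p m) Two.card).isNilpotent
  refine ⟨fun p _ => ⟨fun m => ⟨Two.card, hnil p m, Two.class_two, Two.card_ab⟩,
    fun m k C h1 h2 h3 h4 => family p m k C h1 h2 h3 h4⟩,
    fun G _ _ k C a h1 h2 h3 h4 h5 h6 h7 => main G k C a h1 h2 h3 h4 h5 h6 h7, ?_⟩
  have h2 : Fact (Nat.Prime 2) := ⟨Nat.prime_two⟩
  have hl2 : 0 < Real.log 2 := Real.log_pos (by norm_num)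
  have hcard : ∀ j : ℕ, Real.log (Nat.card (Two 2 j)) = (2 * (j : ℝ) + 1) * Real.log 2 := by
    intro j
    rw [Two.card]
    push_cast
    rw [Real.log_pow]
    push_cast
    ring
  have hk : Tendsto (fun j : ℕ => (((j + 1) ^ 2 : ℕ) : ℝ) / Real.log (Nat.card (Two 2 j))) atTop
      atTop := by
    have h3 : Tendsto (fun j : ℕ => ((j : ℝ) + 1) * (1 / (2 * Real.log 2))) atTop atTop :=
      (tendsto_atTop_add_const_right _ 1 tendsto_natCast_atTop_atTop).atTop_mul_const
        (by positivity)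
    refine tendsto_atTop_mono (fun j => ?_) h3
    have h4 : 0 < Real.log (Nat.card (Two 2 j)) := by rw [hcard]; positivity
    rw [le_div_iff₀ h4, hcard]
    push_cast
    have h5 : ((j : ℝ) + 1) * (1 / (2 * Real.log 2)) * ((2 * (j : ℝ) + 1) * Real.log 2) =
        ((j : ℝ) + 1) * ((2 * (j : ℝ) + 1) / 2) := by field_simp
    rw [h5]
    have : (0 : ℝ) ≤ j := Nat.cast_nonneg _
    nlinarith
  have hkN : ∀ᶠ j : ℕ in atTop, (((j + 1) ^ 2 : ℕ) : ℝ) ≤
      Real.log (Nat.card (Two 2 j)) ^ (3 : ℝ) := by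
    filter_upwards [eventually_ge_atTop 7] with j hj
    rw [hcard]
    have h1 : (7 : ℝ) ≤ j := by exact_mod_cast hj
    have h3 := Real.log_two_gt_d9
    have h4 : (j : ℝ) + 1 ≤ (2 * (j : ℝ) + 1) * Real.log 2 := by nlinarith
    have h5 : ((j : ℝ) + 1) ^ (3 : ℝ) ≤ ((2 * (j : ℝ) + 1) * Real.log 2) ^ (3 : ℝ) :=
      Real.rpow_le_rpow (by linarith) h4 (by norm_num)
    have h6 : ((j : ℝ) + 1) ^ (3 : ℝ) = ((j : ℝ) + 1) ^ (3 : ℕ) := by
      rw [← Real.rpow_natCast ((j : ℝ) + 1) 3, Nat.cast_ofNat]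
    rw [h6] at h5
    push_cast
    nlinarith [sq_nonneg ((j : ℝ) + 1)]
  have h := family 2 (fun j => j) (fun j => (j + 1) ^ 2) 3 tendsto_id (by norm_num) hk hkN
  exact ⟨fun j => Two 2 j, inferInstance, inferInstance, fun j => (j + 1) ^ 2, hnil 2,
    fun _ => Two.class_two, h.1, h.2.1, h.2.2.1, h.2.2.2.1, h.2.2.2.2.2⟩

end Pool.Agent.Results.MP_bb6540_pr.ClassTwo
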