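import Pool.Agent.Results.MP_d87a8f_pr.ExactCutoff
import Pool.Agent.Results.MP_bb6540_pr.ClassTwo

/-!
# MP_bb6540_pr: exact cutoff times, nilpotent groups of class two and nearly abelian groups

The law of the walk, its total variation distance `tvDist`, the entropic time `t0`, `tStar` and
`CutoffWhpAt` are those of `Pool.Agent.H632R3.RCG`.
-/

set_option autoImplicit false

open Filter Topology
open Pool.Agent.H632R3.RCG
open Pool.Agent.Y571.NC (Two)

namespace Pool.Agent.Results.MP_bb6540_pr.ExactCutoffTimes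

/-- `G j` has a subgroup `B j` of index `κ j ^ o(1)`, `κ = k / log |G|`, whose commutators lie in
a normal subgroup `N j` of `G j` of order `|G j| ^ o(1)`. -/
def NearlyAbelian (G : ℕ → Type) [∀ j, Group (G j)] (k : ℕ → ℕ) : Prop :=
  ∃ N B : ∀ j, Subgroup (G j), (∀ j, (N j).Normal) ∧
    (∀ j, ∀ a ∈ B j, ∀ b ∈ B j, a * b * a⁻¹ * b⁻¹ ∈ N j) ∧
    Tendsto (fun j => Real.log (B j).index / Real.log (k j / Real.log (Nat.card (G j)))) atTop
      (𝓝 0) ∧
    Tendsto (fun j => Real.log (Nat.card (N j)) / Real.log (Nat.card (G j))) atTop (𝓝 0)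

/-- The conjecture holds for the sequence: cutoff whp at `t_*`. -/
def Holds (G : ℕ → Type) [∀ j, Group (G j)] [∀ j, Fintype (G j)] (k : ℕ → ℕ) : Prop :=
  CutoffWhpAt G k (fun j => tStar (G j) (k j))

/-- **Exact cutoff times.** (1) For all sequences of nearly abelian nilpotent groups and
`k ≫ log |G|` there is cutoff whp at the entropic time `t_0 (k, |G|)`, as for abelian groups, and
at times `u ≥ 0` if and only if `u` is asymptotic to it. (2) If `k ≤ (log |G|) ^ C` the conjecture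
holds for the sequence if and only if `|A| = |G| ^ (1 - o(1))`. (3) For every prime `p` the
nilpotent groups `Two p m` of class two, for all `m → ∞` and all `k` as in (2), have cutoff at
`t_0 (k, |G|)` and not at `t_*`. -/
theorem result :
    (∀ (G : ℕ → Type) [∀ j, Group (G j)] [∀ j, Fintype (G j)] (k : ℕ → ℕ),
      (∀ j, Group.IsNilpotent (G j)) →
      Tendsto (fun j => Nat.card (G j)) atTop atTop →
      Tendsto (fun j => (k j : ℝ) / Real.log (Nat.card (G j))) atTop atTop →
      Tendsto (fun j => Real.log (k j) / Real.log (Nat.card (G j))) atTop (𝓝 0) →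
      NearlyAbelian G k →
        CutoffWhpAt G k (fun j => t0 (k j) (Nat.card (G j))) ∧
        (∀ u : ℕ → ℝ, (∀ᶠ j in atTop, 0 ≤ u j) →
          (CutoffWhpAt G k u ↔
            Tendsto (fun j => u j / t0 (k j) (Nat.card (G j))) atTop (𝓝 1)))) ∧
    (∀ (G : ℕ → Type) [∀ j, Group (G j)] [∀ j, Fintype (G j)] (k : ℕ → ℕ) (C : ℝ),
      (∀ j, Group.IsNilpotent (G j)) →
      Tendsto (fun j => Nat.card (G j)) atTop atTop →
      Tendsto (fun j => (k j : ℝ) / Real.log (Nat.card (G j))) atTop atTop →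
      0 < C → (∀ᶠ j in atTop, (k j : ℝ) ≤ Real.log (Nat.card (G j)) ^ C) →
      NearlyAbelian G k →
        (Holds G k ↔ Tendsto (fun j => Real.log (Nat.card (Abelianization (G j))) /
            Real.log (Nat.card (G j))) atTop (𝓝 1))) ∧
    (∀ (p : ℕ) [Fact p.Prime],
      (∀ m : ℕ, Nat.card (Two p m) = p ^ (2 * m + 1) ∧ Group.IsNilpotent (Two p m) ∧
        (∀ a b z : Two p m, a * b * a⁻¹ * b⁻¹ * z = z * (a * b * a⁻¹ * b⁻¹)) ∧
        Nat.card (Abelianization (Two p m)) ≤ p ^ (m + 1)) ∧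
      ∀ (m k : ℕ → ℕ) (C : ℝ), Tendsto m atTop atTop → 0 < C →
        Tendsto (fun j => (k j : ℝ) / Real.log (Nat.card (Two p (m j)))) atTop atTop →
        (∀ᶠ j in atTop, (k j : ℝ) ≤ Real.log (Nat.card (Two p (m j))) ^ C) →
        CutoffWhpAt (fun j => Two p (m j)) k
          (fun j => t0 (k j) (Nat.card (Two p (m j)))) ∧
        ¬ Holds (fun j => Two p (m j)) k) := by
  have key : ∀ (G : ℕ → Type) [∀ j, Group (G j)] [∀ j, Fintype (G j)] (k : ℕ → ℕ),
      Tendsto (fun j => Nat.card (G j)) atTop atTop →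
      Tendsto (fun j => (k j : ℝ) / Real.log (Nat.card (G j))) atTop atTop →
      Tendsto (fun j => Real.log (k j) / Real.log (Nat.card (G j))) atTop (𝓝 0) →
      NearlyAbelian G k → ∀ u : ℕ → ℝ, (∀ᶠ j in atTop, 0 ≤ u j) →
          (CutoffWhpAt G k u ↔
            Tendsto (fun j => u j / t0 (k j) (Nat.card (G j))) atTop (𝓝 1)) := by
    intro G _ _ k h1 h2 h3 h4 u hu
    have e1 := Pool.Agent.Results.MP_d87a8f_pr.ExactCutoff.exact G k h1 h2 h3 h4 u hu
    have e2 := Pool.Agent.Y571.UB.t0_ratio G k Pool.Agent.Y794.UB.t0low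
      Pool.Agent.Y419.UB.Ent.ent h1 h2
    have hx := (Pool.Agent.Y571.UB.tEnt_tendsto G k h1 h2 h3).eventually_gt_atTop 0
    rw [e1]
    have h0 : ∀ᶠ j in atTop, t0 (k j) (Nat.card (G j)) ≠ 0 := by
      filter_upwards [e2.eventually_const_lt (show (1 / 2 : ℝ) < 1 by norm_num)] with j h5 h6
      rw [h6, zero_div] at h5
      norm_num at h5
    constructor
    · intro h
      have h5 := h.div e2 one_ne_zero
      rw [div_one] at h5
      refine h5.congr' ?_
      filter_upwards [hx, h0] with j h6 h7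
      exact div_div_div_cancel_right₀ h6.ne' _ _
    · intro h
      have h5 := h.mul e2
      rw [one_mul] at h5
      refine h5.congr' ?_
      filter_upwards [hx, h0] with j h6 h7
      exact div_mul_div_cancel₀ h7
  have hc := Pool.Agent.Results.MP_bb6540_pr.ClassTwo.result
  refine ⟨fun G _ _ k _ h1 h2 h3 h4 =>
      ⟨Pool.Agent.Results.MP_d87a8f_pr.ExactCutoff.at_t0 G k h1 h2 h3 h4,
        key G k h1 h2 h3 h4⟩,
    fun G _ _ k C _ h1 h2 h3 h4 h5 =>
      Pool.Agent.Results.MP_d87a8f_pr.ExactCutoff.criterion G k C h1 h2 h3 h4 h5,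
    fun p _ => ⟨(hc.1 p).1, fun m k C h1 h2 h3 h4 => ?_⟩⟩
  have h5 := (hc.1 p).2 m k C h1 h2 h3 h4
  have hG : NearlyAbelian (fun j => Two p (m j)) k :=
    Pool.Agent.Results.MP_d87a8f_pr.ExactCutoff.nearly_of (fun j => Two p (m j)) k h3 p
      (fun j => (Two.cHom p (m j)).ker)
      (fun j a ha b hb => Two.ker_comm a ha b hb) (fun j => Two.ker_index)
  exact ⟨Pool.Agent.Results.MP_d87a8f_pr.ExactCutoff.at_t0 (fun j => Two p (m j)) k h5.1 h3
    h5.2.2.1 hG, h5.2.2.2.2.2⟩

end Pool.Agent.Results.MP_bb6540_pr.ExactCutoffTimes
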